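import Pool.Agent.H19OL.Core
import Pool.Agent.H7.Gtu.Main

/-!
# OL Main: the conjecture goes down from a model of the fibre product to the surface
-/

set_option autoImplicit false

open Topology Filter MvPolynomial Metric

noncomputable section

namespace Pool.Agent.H19OL

open Pool.Agent.H17 (PN VanishesAt HolomorphicInto ZariskiClosedIn)
open Pool.Agent.H13.SM (conTan)
open Pool.Agent.H62.FC (Homog)
open Pool.Agent.H17LG.Variety (FunField)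
open Pool.Agent.H17EF (projVar coneE GT)
open Pool.Agent.H92.TH (SymDiff)
open Pool.Agent.H7.Bir (GGL)

variable {N M K r : ℕ} {P : Ideal (MvPolynomial (Fin (N + 1)) ℂ)} {A B : MvPolynomial (Fin (N + 1)) ℂ} {Λ : AddSubgroup ℂ}
  {R : ℂ ⧸ Λ → PN 1} {e : ℂ ⧸ Λ → PN r} {ε : Fin (M + 1) ≃ Fin (N + 1) × Fin (r + 1)} {m : ℕ} {Φ : MvPolynomial (Fin 2) ℂ}
  {Θ : SymDiff (coneE P) m}

/-- The fibre product is of general type if the surface is. -/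
theorem gt_fib [hPp : P.IsPrime] (hP : Homog P) {k : ℕ} (hz : ∃ z : Fin (k + 1) → FunField P, IsTranscendenceBasis ℂ z)
    (hgt : GT P (k + 1)) {d : ℕ} (hA : A.IsHomogeneous d) (hB : B.IsHomogeneous d) (hAB : A ∉ P ∨ B ∉ P)
    (hR : Function.Surjective R) [hV : (fibreProduct P A B R e ε).IsPrime]
    (hz' : ∃ z : Fin (k + 1) → FunField (fibreProduct P A B R e ε), IsTranscendenceBasis ℂ z) : GT (fibreProduct P A B R e ε) (k + 1) := by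
  obtain ⟨i₁, hi₁⟩ : ∃ i, (X i : MvPolynomial (Fin (N + 1)) ℂ) ∉ P := by
    obtain ⟨z, hz⟩ := hz
    obtain ⟨i, hi⟩ := Pool.Agent.H92.GT.Proj.exists_coordFun_ne_zero P z hz
    exact ⟨i, Pool.Agent.H17R.coordFun_ne_zero_iff.1 hi⟩
  obtain ⟨l, hl⟩ : ∃ l, (X l : MvPolynomial (Fin (M + 1)) ℂ) ∉ fibreProduct P A B R e ε := by
    obtain ⟨z, hz⟩ := hz'
    obtain ⟨i, hi⟩ := Pool.Agent.H92.GT.Proj.exists_coordFun_ne_zero _ z hz
    exact ⟨i, Pool.Agent.H17R.coordFun_ne_zero_iff.1 hi⟩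
  obtain ⟨⟨i₀, j⟩, rfl⟩ : ∃ p, l = ε.symm p := ⟨ε l, (ε.symm_apply_apply l).symm⟩
  obtain ⟨φ⟩ := exists_hom (proj_homog (ε := ε) j) (proj_maps hP ⟨i₁, hi₁⟩ hA hB hAB hR hl) hi₁ hl
  exact Pool.Agent.H7.Gtu.isGT_of_hom φ hz hz' hgt

/-- **The Green–Griffiths–Lang conjecture goes down** from a variety birational to the fibre product to the surface. -/
theorem ggl_of_model [hPp : P.IsPrime] {z : Fin 2 → FunField P} (hP : Homog P) (hz : IsTranscendenceBasis ℂ z)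
    (hsm : ∀ y : Fin (N + 1) → ℂ, y ≠ 0 → (∀ Q ∈ P, eval y Q = 0) → Module.finrank ℂ (conTan P y) ≤ 3) (hgt : GT P 2)
    {d : ℕ} (hA : A.IsHomogeneous d) (hB : B.IsHomogeneous d) (hAB : A ∉ P ∨ B ∉ P) (hm : 1 ≤ m)
    (hR : IsOrbifoldCover R m Φ) (hΘ : IsPullback P A B Θ Φ) (he : HolomorphicInto (fun z : ℂ => e z) Set.univ)
    [hV : (fibreProduct P A B R e ε).IsPrime] {P₁ : Ideal (MvPolynomial (Fin (K + 1)) ℂ)} [P₁.IsPrime] (hP₁ : Homog P₁)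
    (hz₁ : ∃ z : Fin 2 → FunField P₁, IsTranscendenceBasis ℂ z)
    (iso : FunField P₁ ≃ₐ[ℂ] FunField (fibreProduct P A B R e ε)) {Ξ₁ : Set (PN K)} (h : GGL P₁ Ξ₁) : ∃ Ξ, GGL P Ξ := by
  obtain ⟨z₁, hz₁⟩ := hz₁
  obtain ⟨Ξ', hΞ'⟩ := Pool.Agent.H7.Bir.bir_four hP₁ ⟨1, z₁, hz₁⟩ (homog_fib (R := R) (e := e) (ε := ε) hP hA hB) iso.symm h
  exact ggl_of_cover hP hz hsm hgt hA hB hAB hm hR hΘ he ⟨iso ∘ z₁, iso.isTranscendenceBasis hz₁⟩ hΞ'.closed hΞ'.proper hΞ'.brody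

/-- A smooth model of the fibre product is of general type if the surface is. -/
theorem gt_model [hPp : P.IsPrime] (hP : Homog P) (hz : ∃ z : Fin 2 → FunField P, IsTranscendenceBasis ℂ z)
    (hgt : GT P 2) {d : ℕ} (hA : A.IsHomogeneous d) (hB : B.IsHomogeneous d) (hAB : A ∉ P ∨ B ∉ P)
    (hR : Function.Surjective R) [hV : (fibreProduct P A B R e ε).IsPrime] {P₁ : Ideal (MvPolynomial (Fin (K + 1)) ℂ)} [P₁.IsPrime]
    (hz₁ : ∃ z : Fin 2 → FunField P₁, IsTranscendenceBasis ℂ z)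
    (iso : FunField P₁ ≃ₐ[ℂ] FunField (fibreProduct P A B R e ε)) : GT P₁ 2 := by
  obtain ⟨z₁, hz₁⟩ := hz₁
  have h1 : ∃ z : Fin 2 → FunField (fibreProduct P A B R e ε), IsTranscendenceBasis ℂ z :=
    ⟨iso ∘ z₁, iso.isTranscendenceBasis hz₁⟩
  have h2 := gt_fib (k := 1) hP hz hgt hA hB hAB hR h1
  exact Pool.Agent.H7.Gtu.isGT_of_hom (k := 2) (iso.symm : FunField (fibreProduct P A B R e ε) →ₐ[ℂ] FunField P₁) h1 ⟨z₁, hz₁⟩ h2

end Pool.Agent.H19OL
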