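import Pool.Agent.H19OL.ClassDefs
import Pool.Agent.H19OL.Main
import Pool.Agent.H7.Bir.Open
import Pool.Agent.H62.Et.Final
import Pool.Agent.H17N.MainN

/-!
# OL Class: the Green–Griffiths–Lang conjecture for the surfaces of the class `OverElliptic`
-/

set_option autoImplicit false

open Topology Filter MvPolynomial Metric

noncomputable section

namespace Pool.Agent.H19OL

open Pool.Agent.H17 (PN VanishesAt HolomorphicInto ZariskiClosedIn)
open Pool.Agent.H13.SM (conTan)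
open Pool.Agent.H62.FC (Homog)
open Pool.Agent.H62.SA (locVar)
open Pool.Agent.H17LG.Variety (FunField)
open Pool.Agent.H17EF (projVar coneE GT IsHolomorphicMap locVar_one exists_coord exists_point exists_form_of_ne)
open Pool.Agent.H92.TH (SymDiff)
open Pool.Agent.H7.Bir (GGL GGLOpen)
open Pool.Agent.H62.Et (IsUnramified GGLK)
open Pool.Agent.H17G (excG)

/-- **The conjecture for the surfaces of the class.** -/
theorem OverElliptic.main {N : ℕ} {P : Ideal (MvPolynomial (Fin (N + 1)) ℂ)} (h : OverElliptic N P) :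
    ∀ [P.IsPrime], Homog P ∧ (∃ z : Fin 2 → FunField P, IsTranscendenceBasis ℂ z) ∧ (GT P 2 → ∃ Ξ, GGL P Ξ) := by
  induction h with
  | elliptic P hP w hw u hu hne hform =>
    intro _
    obtain ⟨z, hz⟩ := hP.dim
    refine ⟨hP.homog, hP.dim, fun hgt => ?_⟩
    obtain ⟨hG, -⟩ := Pool.Agent.H17N.fourN hP.homog hz hP.smooth hgt hw hu hne hw
      (fun i => AddSubgroup.subset_closure (Set.mem_range_self i)) (hform.of hu)
    exact ⟨_, hG⟩
  | birational P hP P' iso h ih =>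
    intro _
    obtain ⟨hP', ⟨z', hz'⟩, ih⟩ := @ih inferInstance
    obtain ⟨e⟩ := iso
    have hdim : ∃ z : Fin 2 → FunField P, IsTranscendenceBasis ℂ z := ⟨e ∘ z', e.isTranscendenceBasis hz'⟩
    refine ⟨hP, hdim, fun hgt => ?_⟩
    have hgt' : GT P' 2 := Pool.Agent.H7.Gtu.isGT_of_hom (e.symm : FunField P →ₐ[ℂ] FunField P') hdim ⟨z', hz'⟩ hgt
    obtain ⟨Ξ', hΞ'⟩ := ih hgt'
    exact Pool.Agent.H7.Bir.bir_four hP' ⟨1, z', hz'⟩ hP e.symm hΞ'
  | unramified P hP P' hP' p hp h ih =>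
    intro _
    obtain ⟨-, -, ih⟩ := @ih inferInstance
    refine ⟨hP.homog, hP.dim, fun hgt => ?_⟩
    obtain ⟨z, hz⟩ := hP.dim
    obtain ⟨z', hz'⟩ := hP'.dim
    have hE := Pool.Agent.H62.Et.isEtale_of_isUnramified hP.homog hP'.homog hz hz' hP.smooth hP'.smooth hp
    -- the covering surface is of general type
    obtain ⟨i, hi⟩ := Pool.Agent.H17G.nonempty_coord hz
    obtain ⟨j, hj⟩ := Pool.Agent.H17G.nonempty_coord hz'
    obtain ⟨y, hy, -⟩ := exists_point hP'.homog ⟨j, hj⟩ hj (isHomogeneous_X ℂ j)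
    obtain ⟨n, D, γ, hγ, hγne, hrep, hcov⟩ := Pool.Agent.H62.Et.exists_cover hP'.homog hE
    obtain ⟨k, -⟩ := hcov y hy
    obtain ⟨φ⟩ := exists_hom (hγ k) (Pool.Agent.H62.Et.dominant hP.homog hP'.homog ⟨i, hi⟩ hE (hγ k) (hrep k) (hγne k)) hi hj
    have hgt' : GT P' 2 := Pool.Agent.H7.Gtu.isGT_of_hom φ ⟨z, hz⟩ ⟨z', hz'⟩ hgt
    obtain ⟨Ξ', hΞ'⟩ := ih hgt'
    have h4 := Pool.Agent.H62.Et.unramified_four hP.homog hz hP.smooth hgt hP'.homog hz' hP'.smooth hp hΞ'.closed hΞ'.proper hΞ'.brody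
    exact ⟨_, h4.1⟩
  | orbifold P hP A B d hA hB hAB w hw R m hm Φ hR Θ hΘ e he he' ε hV h ih =>
    intro _
    have := hV
    obtain ⟨-, hz', ih⟩ := @ih hV
    refine ⟨hP.homog, hP.dim, fun hgt => ?_⟩
    obtain ⟨z, hz⟩ := hP.dim
    have hgt' := gt_fib (k := 1) hP.homog ⟨z, hz⟩ hgt hA hB hAB hR.onto hz'
    obtain ⟨Ξ', hΞ'⟩ := ih hgt'
    exact ggl_of_cover hP.homog hz hP.smooth hgt hA hB hAB hm hR hΘ he hz' hΞ'.closed hΞ'.proper hΞ'.brody

section

variable {N : ℕ} {P : Ideal (MvPolynomial (Fin (N + 1)) ℂ)} [P.IsPrime]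

/-- Every nonempty Zariski open subset of a surface of general type of the class has the properties. -/
theorem OverElliptic.open_four (h : OverElliptic N P) (hgt : GT P 2) {s : ℕ} {G : Fin s → MvPolynomial (Fin (N + 1)) ℂ}
    (hG : ∀ m, ∃ n, (G m).IsHomogeneous n) (hne : (locVar P G).Nonempty) : ∃ Ξ, GGLOpen P G Ξ := by
  obtain ⟨hP, -, h1⟩ := h.main
  obtain ⟨Ξ, hΞ⟩ := h1 hgt
  exact ⟨_, Pool.Agent.H7.Bir.open_four hP hG hne hΞ⟩

/-- For a smooth surface of the class the exceptional set is the closure of the union of the entire curves. -/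
theorem OverElliptic.gglk (h : OverElliptic N P) (hgt : GT P 2)
    (hsm : ∀ x : Fin (N + 1) → ℂ, x ≠ 0 → (∀ Q ∈ P, eval x Q = 0) → Module.finrank ℂ (conTan P x) ≤ 3) : GGLK P := by
  obtain ⟨hP, ⟨z, hz⟩, h1⟩ := h.main
  obtain ⟨Ξ, hΞ⟩ := h1 hgt
  obtain ⟨S, n, hS, hSP, hSΞ⟩ := exists_form_of_ne hΞ.closed hΞ.proper
  exact Pool.Agent.H62.Et.ggl_of_orderTwo hP hz hsm hgt hS hSP fun f hf _ hfX hfn z => hSΞ _ (hΞ.brody f hf hfX hfn z)

/-- from `GGL` to `GGLOpen` for the projective variety itself -/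
theorem gglOpen_one (hP : Homog P) {Ξ : Set (PN N)} (h : GGL P Ξ) (hX : (projVar P).Nonempty) :
    GGLOpen P (fun _ : Fin 1 => (1 : MvPolynomial (Fin (N + 1)) ℂ)) Ξ := by
  have h1 := Pool.Agent.H7.Bir.open_four (G := fun _ : Fin 1 => (1 : MvPolynomial (Fin (N + 1)) ℂ)) hP
    (fun _ => ⟨0, isHomogeneous_one _ _⟩) (by rw [locVar_one]; exact hX) h
  have h2 : Ξ ∩ locVar P (fun _ : Fin 1 => (1 : MvPolynomial (Fin (N + 1)) ℂ)) = Ξ := by
    rw [locVar_one]
    obtain ⟨S, -, hS⟩ := h.closed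
    rw [hS]
    ext x
    exact ⟨fun hx => hx.1, fun hx => ⟨hx, hx.1⟩⟩
  rwa [h2] at h1

end

end Pool.Agent.H19OL
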