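import Pool.Agent.H17G.PNG
import Pool.Agent.H17N.PNDefs

/-!
# OL Forms: holomorphic `2`-forms on a projective surface which vanish on fibres of a map to an elliptic curve
-/

set_option autoImplicit false

open Topology Filter MvPolynomial

noncomputable section

namespace Pool.Agent.H19OL

open Pool.Agent.H17 (PN)
open Pool.Agent.H17EF (IsHolomorphicMap)
open Pool.Agent.H17G (IsTangent)

variable {N : ℕ}

/-- `x` is a vector of homogeneous coordinates of a point of `X`. -/
def IsPoint (X : Set (PN N)) (x : Fin (N + 1) → ℂ) : Prop := ∃ h : x ≠ 0, Projectivization.mk ℂ x h ∈ X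

/-- `Ω` is a holomorphic `2`-form on the surface `X`, given as a function of the homogeneous coordinates `x` of a point and two tangent vectors `v`,
`w` of the affine cone over `X` at `x`. -/
structure IsTwoForm (X : Set (PN N)) (Ω : (Fin (N + 1) → ℂ) → (Fin (N + 1) → ℂ) → (Fin (N + 1) → ℂ) → ℂ) : Prop where
  /-- the form depends only on the images of the tangent vectors in the tangent space of the projective space -/
  horizontal : ∀ x, IsPoint X x → ∀ v w, IsTangent X x v → IsTangent X x w → ∀ a b : ℂ, Ω x (v + a • x) (w + b • x) = Ω x v w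
  /-- the form is bilinear and alternating -/
  alternating : ∀ x, IsPoint X x → ∀ v w, IsTangent X x v → IsTangent X x w → ∀ a b c d : ℂ,
    Ω x (a • v + b • w) (c • v + d • w) = (a * d - b * c) * Ω x v w
  /-- the form does not depend on the choice of the homogeneous coordinates -/
  homogeneous : ∀ x, IsPoint X x → ∀ v w, IsTangent X x v → IsTangent X x w → ∀ c : ℂ, c ≠ 0 → Ω (c • x) (c • v) (c • w) = Ω x v w
  /-- the form is holomorphic -/
  holomorphic : ∀ (φ : ℂ × ℂ → Fin (N + 1) → ℂ) (p : ℂ × ℂ), AnalyticAt ℂ φ p → (∀ᶠ y in 𝓝 p, IsPoint X (φ y)) →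
    AnalyticAt ℂ (fun y => Ω (φ y) (fderiv ℂ φ y (1, 0)) (fderiv ℂ φ y (0, 1))) p

/-- The form `Ω` vanishes on no nonempty open set. -/
def IsNowhereZero (X : Set (PN N)) (Ω : (Fin (N + 1) → ℂ) → (Fin (N + 1) → ℂ) → (Fin (N + 1) → ℂ) → ℂ) : Prop :=
  ∀ x, IsPoint X x → ∃ᶠ y in 𝓝 x, IsPoint X y ∧ ∃ v w, IsTangent X y v ∧ IsTangent X y w ∧ Ω y v w ≠ 0

/-- For infinitely many points `c` of `ℂ / Λ` there is a holomorphic `2`-form on `X`, which vanishes on no nonempty open set, but vanishes at all points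
of the fibre of `u` over `c`. -/
def HasForms (X : Set (PN N)) (Λ : AddSubgroup ℂ) (u : PN N → ℂ ⧸ Λ) : Prop :=
  {c : ℂ ⧸ Λ | ∃ Ω, IsTwoForm X Ω ∧ IsNowhereZero X Ω ∧ ∀ (x : Fin (N + 1) → ℂ) (h : x ≠ 0), Projectivization.mk ℂ x h ∈ X →
    u (Projectivization.mk ℂ x h) = c → ∀ v w, IsTangent X x v → IsTangent X x w → Ω x v w = 0}.Infinite

/-- comparison with the definitions for coverings -/
theorem HasForms.of {X : Set (PN N)} {Λ : AddSubgroup ℂ} {u : PN N → ℂ ⧸ Λ} (hu : IsHolomorphicMap X Λ u) (h : HasForms X Λ u) :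
    Pool.Agent.H17G.HasForms X Λ Λ u := by
  refine h.mono ?_
  rintro c ⟨Ω, h1, h2, h3⟩
  refine ⟨fun _ => Ω, ⟨?_, ?_, ?_, ?_, ?_⟩, ?_, ?_⟩
  · exact fun z l hl x hx v w hv hw => rfl
  · exact fun z x hx v w hv hw a b => h1.horizontal x ⟨hx.1, hx.2.1⟩ v w hv hw a b
  · exact fun z x hx v w hv hw a b c d => h1.alternating x ⟨hx.1, hx.2.1⟩ v w hv hw a b c d
  · exact fun z x hx v w hv hw c hc => h1.homogeneous x ⟨hx.1, hx.2.1⟩ v w hv hw c hc
  · intro φ υ p hφ _ hev
    exact h1.holomorphic φ p hφ (hev.mono fun y hy => ⟨hy.1, hy.2.1⟩)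
  · rintro z x ⟨hx, hxX, hxu⟩
    obtain ⟨v, hv, hvu⟩ := hu x hx hxX
    have h4 := h2 x ⟨hx, hxX⟩
    -- the value of `u` near `x`
    have h5 : Tendsto (fun y => (v y + (z - v x), y)) (𝓝 x) (𝓝 (z, x)) := by
      have h6 : ContinuousAt (fun y => (v y + (z - v x), y)) x := (hv.continuousAt.add continuousAt_const).prodMk continuousAt_id
      have h7 := h6.tendsto
      have h8 : v x + (z - v x) = z := by ring
      rwa [h8] at h7
    refine h5.frequently ((h4.and_eventually hvu).mono ?_)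
    rintro y ⟨⟨⟨hy, hyX⟩, hyΩ⟩, hyu⟩
    refine ⟨⟨hy, hyX, ?_⟩, hyΩ⟩
    rw [hyu hy hyX]
    have h9 : ((z - v x : ℂ) : ℂ ⧸ Λ) = 0 := by
      have h10 := hvu.self_of_nhds hx hxX
      rw [hxu] at h10
      rw [QuotientAddGroup.mk_sub, h10, sub_self]
    rw [QuotientAddGroup.mk_add, h9, add_zero]
  · rintro z rfl x ⟨hx, hxX, hxu⟩ v w hv hw
    exact h3 x hx hxX hxu v w hv hw

end Pool.Agent.H19OL
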