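import Pool.Agent.H19OL.Defs
import Pool.Agent.H19OL.Forms
import Pool.Agent.H62.Et.Defs

/-!
# OL ClassDefs: surfaces which lie over an elliptic curve, up to birational maps, unramified coverings and orbifold coverings
-/

set_option autoImplicit false

open MvPolynomial

noncomputable section

namespace Pool.Agent.H19OL

open Pool.Agent.H17 (PN HolomorphicInto)
open Pool.Agent.H13.SM (conTan)
open Pool.Agent.H62.FC (Homog)
open Pool.Agent.H17LG.Variety (FunField)
open Pool.Agent.H17EF (projVar coneE IsHolomorphicMap)
open Pool.Agent.H17N (NowhereConstant)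
open Pool.Agent.H92.TH (SymDiff)
open Pool.Agent.H62.Et (IsUnramified)

/-- The closed subvariety `X` of `ℙ^N` given by the prime ideal `P` is a smooth surface: the dimension is `2`, and the tangent space of the affine cone
over `X` has dimension at most `3` at every point different from `0`. -/
structure IsSmoothSurface {N : ℕ} (P : Ideal (MvPolynomial (Fin (N + 1)) ℂ)) [P.IsPrime] : Prop where
  homog : Homog P
  dim : ∃ z : Fin 2 → FunField P, IsTranscendenceBasis ℂ z
  smooth : ∀ x : Fin (N + 1) → ℂ, x ≠ 0 → (∀ Q ∈ P, eval x Q = 0) → Module.finrank ℂ (conTan P x) ≤ 3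

/-- The smallest class of projective surfaces (given by homogeneous prime ideals) with the following properties. -/
inductive OverElliptic : ∀ (N : ℕ), Ideal (MvPolynomial (Fin (N + 1)) ℂ) → Prop
  /-- The class contains the smooth surface `X` if there is a holomorphic map `u : X → ℂ / L`, `L` a lattice, which is constant on no nonempty open
  set, and for infinitely many `c` a holomorphic `2`-form on `X` which vanishes at all points of the fibre over `c`, but on no nonempty open set. -/
  | elliptic {N : ℕ} (P : Ideal (MvPolynomial (Fin (N + 1)) ℂ)) [P.IsPrime] (hP : IsSmoothSurface P)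
      (w : Fin 2 → ℂ) (hw : LinearIndependent ℝ w) (u : PN N → ℂ ⧸ AddSubgroup.closure (Set.range w))
      (hu : IsHolomorphicMap (projVar P) (AddSubgroup.closure (Set.range w)) u) (hne : NowhereConstant (projVar P) u)
      (hform : HasForms (projVar P) (AddSubgroup.closure (Set.range w)) u) : OverElliptic N P
  /-- The class contains `X` if it contains a surface `X'` which is birational to `X`. -/
  | birational {N M : ℕ} (P : Ideal (MvPolynomial (Fin (N + 1)) ℂ)) [P.IsPrime] (hP : Homog P)
      (P' : Ideal (MvPolynomial (Fin (M + 1)) ℂ)) [P'.IsPrime] (iso : Nonempty (FunField P' ≃ₐ[ℂ] FunField P))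
      (h : OverElliptic M P') : OverElliptic N P
  /-- The class contains the smooth surface `X` if it contains a smooth surface `X'` with a finite unramified covering `p : X' → X`. -/
  | unramified {N M : ℕ} (P : Ideal (MvPolynomial (Fin (N + 1)) ℂ)) [P.IsPrime] (hP : IsSmoothSurface P)
      (P' : Ideal (MvPolynomial (Fin (M + 1)) ℂ)) [P'.IsPrime] (hP' : IsSmoothSurface P') (p : PN M → PN N) (hp : IsUnramified P P' p)
      (h : OverElliptic M P') : OverElliptic N P
  /-- The class contains the smooth surface `X` if there are a rational map `(A : B)` from `X` to `ℙ¹` and a holomorphic map `R` from an elliptic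
  curve `ℂ / L` (embedded in `ℙ^r` by `e`) onto `ℙ¹` with `(R₀ R₁' - R₁ R₀') ^ m = Φ (R₀, R₁)` for a binary form `Φ` of degree `2 m`, such that
  `(A dB - B dA) ^ m / Φ (A, B)` is a holomorphic symmetric differential `Θ` on `X`, and the class contains the fibre product of `X` and `ℂ / L` over
  `ℙ¹`, which is assumed to be irreducible. -/
  | orbifold {N M r : ℕ} (P : Ideal (MvPolynomial (Fin (N + 1)) ℂ)) [P.IsPrime] (hP : IsSmoothSurface P)
      (A B : MvPolynomial (Fin (N + 1)) ℂ) (d : ℕ) (hA : A.IsHomogeneous d) (hB : B.IsHomogeneous d) (hAB : A ∉ P ∨ B ∉ P)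
      (w : Fin 2 → ℂ) (hw : LinearIndependent ℝ w) (R : ℂ ⧸ AddSubgroup.closure (Set.range w) → PN 1)
      (m : ℕ) (hm : 1 ≤ m) (Φ : MvPolynomial (Fin 2) ℂ) (hR : IsOrbifoldCover R m Φ)
      (Θ : SymDiff (coneE P) m) (hΘ : IsPullback P A B Θ Φ)
      (e : ℂ ⧸ AddSubgroup.closure (Set.range w) → PN r) (he : HolomorphicInto (fun z : ℂ => e z) Set.univ) (he' : Function.Injective e)
      (ε : Fin (M + 1) ≃ Fin (N + 1) × Fin (r + 1)) (hV : (fibreProduct P A B R e ε).IsPrime)
      (h : OverElliptic M (fibreProduct P A B R e ε)) : OverElliptic N P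

end Pool.Agent.H19OL
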