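import Pool.Agent.H19OL.Wr

/-!
# OL Clock: a solution of the differential equation of an orbifold covering is the covering, up to an affine change of the parameter

Let `ρ : ℂ → ℂ² - 0` be a holomorphic lift of a surjective map `ℂ → ℙ¹` with `W(ρ) ^ m = Φ(ρ)`, `Φ` a binary form of degree `2 m`.  If `T : ℂ → ℂ²`
is holomorphic, not identically zero, and `W(T) ^ m = q Φ(T)` for a constant `q`, then `T z` is proportional to `ρ (ζ z + b)`.
-/

set_option autoImplicit false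

open Topology Filter MvPolynomial

namespace Pool.Agent.H19OL

theorem eval_smul_form {σ : Type} {n : ℕ} {Q : MvPolynomial σ ℂ} (hQ : Q.IsHomogeneous n) (c : ℂ) (x : σ → ℂ) :
    eval (c • x) Q = c ^ n * eval x Q := by
  rw [eval_eq, eval_eq, Finset.mul_sum]
  refine Finset.sum_congr rfl fun d hd => ?_
  have h5 : ∑ i ∈ d.support, d i = n := by
    have := hQ (mem_support_iff.1 hd)
    rw [Finsupp.weight_apply, Finsupp.sum] at this
    simpa using this
  simp only [Pi.smul_apply, smul_eq_mul, mul_pow, Finset.prod_mul_distrib]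
  rw [Finset.prod_pow_eq_pow_sum, h5]
  ring

/-- The vertical case: the Wronskian is zero. -/
theorem clock_vertical {T : ℂ → Fin 2 → ℂ} (hT : Differentiable ℂ T) (hW : ∀ z, wronskian T z = 0) {z₀ c : ℂ} {v : Fin 2 → ℂ}
    (hv : v ≠ 0) (hc : c ≠ 0) (h0 : T z₀ = c • v) (z : ℂ) : v 0 * T z 1 = v 1 * T z 0 := by
  obtain ⟨α, hα⟩ : ∃ α : Fin 2 → ℂ, α = fun i => (starRingEnd ℂ) (v i) := ⟨_, rfl⟩
  have hκ : α 0 * v 0 + α 1 * v 1 ≠ 0 := by
    rw [hα]
    exact norm_ne_zero' hv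
  have hTi : ∀ i, Differentiable ℂ fun w => T w i := fun i => differentiable_pi.1 hT i
  have hL : Differentiable ℂ fun w => α 0 * T w 0 + α 1 * T w 1 := ((hTi 0).const_mul _).add ((hTi 1).const_mul _)
  have hd : Differentiable ℂ fun w => v 0 * T w 1 - v 1 * T w 0 := ((hTi 1).const_mul _).sub ((hTi 0).const_mul _)
  have hL0 : α 0 * T z₀ 0 + α 1 * T z₀ 1 ≠ 0 := by
    rw [h0]
    simp only [Pi.smul_apply, smul_eq_mul]
    have : α 0 * (c * v 0) + α 1 * (c * v 1) = c * (α 0 * v 0 + α 1 * v 1) := by ring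
    rw [this]
    exact mul_ne_zero hc hκ
  have hLe : ∀ᶠ w in 𝓝 z₀, α 0 * T w 0 + α 1 * T w 1 ≠ 0 := hL.continuous.continuousAt.eventually_ne hL0
  have h1 : ∀ᶠ w in 𝓝 z₀, deriv (fun w => (v 0 * T w 1 - v 1 * T w 0) / (α 0 * T w 0 + α 1 * T w 1)) w = 0 := by
    filter_upwards [hLe] with w hw
    rw [(hasDerivAt_quot (hT w) v α hw).deriv, hW, mul_zero, zero_div]
  have h2 := eventually_const (((hd.analyticAt z₀)).div (hL.analyticAt z₀) hL0) h1
  have h3 : ∀ᶠ w in 𝓝 z₀, v 0 * T w 1 - v 1 * T w 0 = 0 := by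
    filter_upwards [h2, hLe] with w hw hw0
    have h4 : v 0 * T z₀ 1 - v 1 * T z₀ 0 = 0 := by
      rw [h0]
      simp only [Pi.smul_apply, smul_eq_mul]
      ring
    simp only [Pi.div_apply] at hw
    rw [h4, zero_div, div_eq_zero_iff] at hw
    exact hw.resolve_right hw0
  have h4 := AnalyticOnNhd.eq_of_eventuallyEq (f := fun w => v 0 * T w 1 - v 1 * T w 0) (g := fun _ => 0)
    (fun w _ => hd.analyticAt w) (fun w _ => analyticAt_const) (z₀ := z₀) h3
  exact sub_eq_zero.1 (congrFun h4 z)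

/-- The horizontal case. -/
theorem clock_local {m : ℕ} (hm : 1 ≤ m) {Φ : MvPolynomial (Fin 2) ℂ} (hPi : Φ.IsHomogeneous (2 * m)) {ρ : ℂ → Fin 2 → ℂ}
    (hρ : Differentiable ℂ ρ) (hode : ∀ z, wronskian ρ z ^ m = eval (ρ z) Φ)
    {T : ℂ → Fin 2 → ℂ} (hT : Differentiable ℂ T) {q : ℂ} (hq : ∀ z, wronskian T z ^ m = q * eval (T z) Φ) {z₀ w₀ a : ℂ}
    (ha : a ≠ 0) (h0 : T z₀ = a • ρ w₀) (hW : wronskian T z₀ ≠ 0) :
    ∃ ζ : ℂ, ∀ᶠ z in 𝓝 z₀, ∃ s : ℂ, T z = s • ρ (w₀ + ζ * (z - z₀)) := by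
  have hm0 : m ≠ 0 := by omega
  have hPT : eval (T z₀) Φ ≠ 0 := by
    intro h
    have h1 := hq z₀
    rw [h, mul_zero] at h1
    exact hW (pow_eq_zero_iff hm0 |>.1 h1)
  have hq0 : q ≠ 0 := by
    rintro rfl
    have h1 := hq z₀
    rw [zero_mul] at h1
    exact hW (pow_eq_zero_iff hm0 |>.1 h1)
  obtain ⟨v, hv⟩ : ∃ v : Fin 2 → ℂ, v = ρ w₀ := ⟨_, rfl⟩
  have hPv : eval v Φ ≠ 0 := by
    intro h
    apply hPT
    rw [h0, ← hv, eval_smul_form hPi, h, mul_zero]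
  have hv0 : v ≠ 0 := by
    intro h
    apply hPv
    have h1 := eval_smul_form hPi 0 v
    rw [zero_smul, zero_pow (by omega : 2 * m ≠ 0), zero_mul] at h1
    rw [h]
    exact h1
  have hWρ : wronskian ρ w₀ ≠ 0 := by
    intro h
    apply hPv
    rw [hv, ← hode, h, zero_pow hm0]
  obtain ⟨α, hα⟩ : ∃ α : Fin 2 → ℂ, α = fun i => (starRingEnd ℂ) (v i) := ⟨_, rfl⟩
  have hκ : α 0 * v 0 + α 1 * v 1 ≠ 0 := by
    rw [hα]
    exact norm_ne_zero' hv0
  -- the coordinates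
  obtain ⟨L, hL⟩ : ∃ L : (Fin 2 → ℂ) → ℂ, ∀ x, L x = α 0 * x 0 + α 1 * x 1 := ⟨_, fun _ => rfl⟩
  obtain ⟨d, hd⟩ : ∃ d : (Fin 2 → ℂ) → ℂ, ∀ x, d x = v 0 * x 1 - v 1 * x 0 := ⟨_, fun _ => rfl⟩
  have hcoord : ∀ x y : Fin 2 → ℂ, L x = L y → d x = d y → x = y := by
    intro x y h1 h2
    rw [hL, hL] at h1
    rw [hd, hd] at h2
    have h3 : (α 0 * v 0 + α 1 * v 1) * x 0 = (α 0 * v 0 + α 1 * v 1) * y 0 := by linear_combination v 0 * h1 - α 1 * h2
    have h4 : (α 0 * v 0 + α 1 * v 1) * x 1 = (α 0 * v 0 + α 1 * v 1) * y 1 := by linear_combination v 1 * h1 + α 0 * h2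
    funext i
    fin_cases i
    · exact mul_left_cancel₀ hκ h3
    · exact mul_left_cancel₀ hκ h4
  have hsmul : ∀ (c : ℂ) (x : Fin 2 → ℂ), L (c • x) = c * L x ∧ d (c • x) = c * d x := by
    intro c x
    rw [hL, hL, hd, hd]
    simp only [Pi.smul_apply, smul_eq_mul]
    constructor <;> ring
  have hLdiff : ∀ {S : ℂ → Fin 2 → ℂ}, Differentiable ℂ S → Differentiable ℂ (fun w => L (S w)) ∧ Differentiable ℂ (fun w => d (S w)) := by
    intro S hS
    have hSi : ∀ i, Differentiable ℂ fun w => S w i := fun i => differentiable_pi.1 hS i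
    simp only [hL, hd]
    exact ⟨((hSi 0).const_mul _).add ((hSi 1).const_mul _), ((hSi 1).const_mul _).sub ((hSi 0).const_mul _)⟩
  obtain ⟨hLρ, hdρ⟩ := hLdiff hρ
  obtain ⟨hLT, hdT⟩ := hLdiff hT
  have hLv : L v = α 0 * v 0 + α 1 * v 1 := hL v
  have hdv : d v = 0 := by
    rw [hd]
    ring
  have hLρ0 : L (ρ w₀) ≠ 0 := by
    rw [← hv, hLv]
    exact hκ
  have hLT0 : L (T z₀) ≠ 0 := by
    rw [h0, (hsmul _ _).1]
    exact mul_ne_zero ha hLρ0
  -- the affine coordinate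
  have hPan : AnalyticAt ℂ (fun w => d (ρ w) / L (ρ w)) w₀ := (hdρ.analyticAt w₀).div (hLρ.analyticAt w₀) hLρ0
  have hPderiv : deriv (fun w => d (ρ w) / L (ρ w)) w₀ ≠ 0 := by
    have h1 := hasDerivAt_quot (hρ w₀) v α (by rw [← hL]; exact hLρ0)
    simp only [← hL, ← hd] at h1
    rw [h1.deriv]
    exact div_ne_zero (mul_ne_zero (by rw [hLv]; exact hκ) hWρ) (pow_ne_zero _ hLρ0)
  have hP0 : d (ρ w₀) / L (ρ w₀) = 0 := by rw [← hv, hdv, zero_div]
  have hra := hPan.analyticAt_localInverse hPderiv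
  have hr0 : hPan.hasStrictDerivAt.localInverse _ _ _ hPderiv (d (ρ w₀) / L (ρ w₀)) = w₀ :=
    HasStrictFDerivAt.localInverse_apply_image ..
  have hrr := HasStrictDerivAt.eventually_right_inverse hPan.hasStrictDerivAt hPderiv
  obtain ⟨r, hr⟩ : ∃ r : ℂ → ℂ, r = hPan.hasStrictDerivAt.localInverse _ _ _ hPderiv := ⟨_, rfl⟩
  rw [← hr, hP0] at hra hr0
  rw [← hr] at hrr
  simp only [hP0] at hrr
  have hQan : AnalyticAt ℂ (fun w => d (T w) / L (T w)) z₀ := (hdT.analyticAt z₀).div (hLT.analyticAt z₀) hLT0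
  have hQ0 : d (T z₀) / L (T z₀) = 0 := by rw [h0, (hsmul _ _).2, ← hv, hdv, mul_zero, zero_div]
  obtain ⟨h, hh⟩ : ∃ h : ℂ → ℂ, ∀ z, h z = r (d (T z) / L (T z)) := ⟨_, fun _ => rfl⟩
  have hhan : AnalyticAt ℂ h z₀ := by
    have h1 : h = r ∘ fun z => d (T z) / L (T z) := funext hh
    rw [h1]
    refine AnalyticAt.comp ?_ hQan
    simp only [hQ0]
    exact hra
  have hh0 : h z₀ = w₀ := by rw [hh, hQ0, hr0]
  have hLρh : ∀ᶠ z in 𝓝 z₀, L (ρ (h z)) ≠ 0 := by
    have h1 : ContinuousAt (fun z => L (ρ (h z))) z₀ := hLρ.continuous.continuousAt.comp hhan.continuousAt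
    exact h1.eventually_ne (by rw [hh0]; exact hLρ0)
  have hLTe : ∀ᶠ z in 𝓝 z₀, L (T z) ≠ 0 := hLT.continuous.continuousAt.eventually_ne hLT0
  have hPh : ∀ᶠ z in 𝓝 z₀, d (ρ (h z)) / L (ρ (h z)) = d (T z) / L (T z) := by
    have h1 : Tendsto (fun z => d (T z) / L (T z)) (𝓝 z₀) (𝓝 0) := by
      have := hQan.continuousAt.tendsto
      rwa [hQ0] at this
    filter_upwards [h1.eventually hrr] with z hz
    rw [hh]
    exact hz
  obtain ⟨s, hs⟩ : ∃ s : ℂ → ℂ, ∀ z, s z = L (T z) / L (ρ (h z)) := ⟨_, fun _ => rfl⟩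
  have hTs : ∀ᶠ z in 𝓝 z₀, T z = s z • ρ (h z) := by
    filter_upwards [hLρh, hLTe, hPh] with z h1 h2 h3
    apply hcoord
    · rw [(hsmul _ _).1, hs, div_mul_cancel₀ _ h1]
    · rw [(hsmul _ _).2, hs]
      rw [div_eq_div_iff h1 h2] at h3
      field_simp
      linear_combination -h3
  have hsan : AnalyticAt ℂ s z₀ := by
    have h1 : s = fun z => L (T z) / L (ρ (h z)) := funext hs
    rw [h1]
    refine (hLT.analyticAt z₀).div ?_ (by rw [hh0]; exact hLρ0)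
    exact AnalyticAt.comp (g := fun w => L (ρ w)) (f := h) (hLρ.analyticAt _) hhan
  have hpow : ∀ᶠ z in 𝓝 z₀, deriv h z ^ m = q := by
    have hPTe : ∀ᶠ z in 𝓝 z₀, eval (T z) Φ ≠ 0 := by
      have h1 : ContinuousAt (fun z => eval (T z) Φ) z₀ :=
        ((MvPolynomial.continuous_eval Φ).comp hT.continuous).continuousAt
      exact h1.eventually_ne hPT
    filter_upwards [hTs.eventually_nhds, hPTe, hsan.eventually_analyticAt, hhan.eventually_analyticAt] with z h1 h2 h3 h4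
    have h5 : wronskian T z = s z ^ 2 * (deriv h z * wronskian ρ (h z)) := by
      rw [wronskian_congr h1, wronskian_smul_comp (hρ _) h3.differentiableAt h4.differentiableAt]
    have h6 := hq z
    rw [h5, mul_pow, mul_pow, hode, ← pow_mul] at h6
    have h7 : eval (T z) Φ = s z ^ (2 * m) * eval (ρ (h z)) Φ := by
      rw [h1.self_of_nhds, eval_smul_form hPi]
    have h8 : (deriv h z ^ m - q) * eval (T z) Φ = 0 := by
      rw [h7] at h6 ⊢
      linear_combination h6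
    exact sub_eq_zero.1 ((mul_eq_zero.1 h8).resolve_right h2)
  have hconst : ∀ᶠ z in 𝓝 z₀, deriv h z = deriv h z₀ := by
    apply eventually_const hhan.deriv
    filter_upwards [hpow.eventually_nhds, hhan.eventually_analyticAt] with z h1 h2
    have h3 : HasDerivAt (fun w => deriv h w ^ m) ((m : ℂ) * deriv h z ^ (m - 1) * deriv (deriv h) z) z :=
      h2.deriv.differentiableAt.hasDerivAt.pow m
    have h4 : HasDerivAt (fun w => deriv h w ^ m) 0 z := by
      refine (hasDerivAt_const z q).congr_of_eventuallyEq ?_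
      exact h1
    have h5 := h3.unique h4
    have h6 : deriv h z ≠ 0 := by
      intro h0
      have := h1.self_of_nhds
      rw [h0, zero_pow hm0] at this
      exact hq0 this.symm
    have hmC : (m : ℂ) ≠ 0 := by exact_mod_cast hm0
    exact (mul_eq_zero.1 h5).resolve_left (mul_ne_zero hmC (pow_ne_zero _ h6))
  refine ⟨deriv h z₀, ?_⟩
  have haff : ∀ᶠ z in 𝓝 z₀, h z = w₀ + deriv h z₀ * (z - z₀) := by
    have h1 : AnalyticAt ℂ (fun z => h z - deriv h z₀ * (z - z₀)) z₀ :=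
      hhan.sub (analyticAt_const.mul (analyticAt_id.sub analyticAt_const))
    have h2 := eventually_const h1 (by
      filter_upwards [hconst, hhan.eventually_analyticAt] with z h3 h4
      have h5 : HasDerivAt (fun z => h z - deriv h z₀ * (z - z₀)) (deriv h z - deriv h z₀ * 1) z :=
        h4.differentiableAt.hasDerivAt.sub (((hasDerivAt_id z).sub_const z₀).const_mul _)
      rw [h5.deriv, h3]
      ring)
    filter_upwards [h2] with z h3
    rw [sub_self, mul_zero, sub_zero, hh0] at h3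
    linear_combination h3
  filter_upwards [hTs, haff] with z h1 h2
  exact ⟨s z, by rw [h1, h2]⟩

/-- **The clock.** -/
theorem exists_clock {m : ℕ} (hm : 1 ≤ m) {Φ : MvPolynomial (Fin 2) ℂ} (hPi : Φ.IsHomogeneous (2 * m)) {ρ : ℂ → Fin 2 → ℂ}
    (hρ : Differentiable ℂ ρ) (hρ0 : ∀ z, ρ z ≠ 0) (hode : ∀ z, wronskian ρ z ^ m = eval (ρ z) Φ)
    (hsurj : ∀ t : Fin 2 → ℂ, t ≠ 0 → ∃ w c : ℂ, c ≠ 0 ∧ t = c • ρ w)
    {T : ℂ → Fin 2 → ℂ} (hT : Differentiable ℂ T) (hT0 : ∃ z, T z ≠ 0) {q : ℂ} (hq : ∀ z, wronskian T z ^ m = q * eval (T z) Φ) :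
    ∃ ζ b : ℂ, ∀ z, ρ (ζ * z + b) 0 * T z 1 = ρ (ζ * z + b) 1 * T z 0 := by
  by_cases hW : ∀ z, wronskian T z = 0
  · obtain ⟨z₀, hz₀⟩ := hT0
    obtain ⟨b, c, hc, hb⟩ := hsurj _ hz₀
    refine ⟨0, b, fun z => ?_⟩
    rw [zero_mul, zero_add]
    exact clock_vertical hT hW (hρ0 b) hc hb z
  · push Not at hW
    obtain ⟨z₀, hz₀⟩ := hW
    have hTz : T z₀ ≠ 0 := by
      intro h
      apply hz₀
      unfold wronskian
      rw [h]
      simp
    obtain ⟨w₀, a, ha, h0⟩ := hsurj _ hTz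
    obtain ⟨ζ, hζ⟩ := clock_local hm hPi hρ hode hT hq ha h0 hz₀
    refine ⟨ζ, w₀ - ζ * z₀, ?_⟩
    have haff : Differentiable ℂ fun z : ℂ => ζ * z + (w₀ - ζ * z₀) := (differentiable_id.const_mul ζ).add_const _
    have hρi : ∀ i, Differentiable ℂ fun z => ρ (ζ * z + (w₀ - ζ * z₀)) i := fun i =>
      (differentiable_pi.1 hρ i).comp haff
    have hTi : ∀ i, Differentiable ℂ fun w => T w i := fun i => differentiable_pi.1 hT i
    have hg : Differentiable ℂ fun z => ρ (ζ * z + (w₀ - ζ * z₀)) 0 * T z 1 - ρ (ζ * z + (w₀ - ζ * z₀)) 1 * T z 0 :=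
      ((hρi 0).mul (hTi 1)).sub ((hρi 1).mul (hTi 0))
    have h4 := AnalyticOnNhd.eq_of_eventuallyEq (g := fun _ => 0)
      (fun w _ => hg.analyticAt w) (fun w _ => analyticAt_const) (z₀ := z₀) (by
        filter_upwards [hζ] with z hz
        obtain ⟨s, hs⟩ := hz
        have h5 : ζ * z + (w₀ - ζ * z₀) = w₀ + ζ * (z - z₀) := by ring
        rw [h5, hs]
        simp only [Pi.smul_apply, smul_eq_mul]
        ring)
    intro z
    exact sub_eq_zero.1 (congrFun h4 z)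

end Pool.Agent.H19OL
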