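import Pool.Agent.H19OL.Fib
import Pool.Agent.H19OL.Clock
import Pool.Agent.H14.V.FourV

/-!
# OL Core: entire curves of order two and the fibre product
-/

set_option autoImplicit false

open Topology Filter MvPolynomial Metric

noncomputable section

namespace Pool.Agent.H19OL

open Pool.Agent.H17 (PN VanishesAt HolomorphicInto ZariskiClosedIn vanishesAt_mk_iff)
open Pool.Agent.H13.SM (cone conTan)
open Pool.Agent.H62.FC (Homog)
open Pool.Agent.H62.EF (Charts)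
open Pool.Agent.H14.PP (IsCone)
open Pool.Agent.H17LG.Variety (FunField)
open Pool.Agent.H17EF (projVar coneE LE GT mk_mem_projVar)
open Pool.Agent.H36.BP (EN fs)
open Pool.Agent.H92.TH (SymDiff)
open Pool.Agent.H13.OT (OrderTwo)
open Pool.Agent.H7.Bir (vals GGL)

variable {N M r : ℕ} {P : Ideal (MvPolynomial (Fin (N + 1)) ℂ)} {A B : MvPolynomial (Fin (N + 1)) ℂ} {Λ : AddSubgroup ℂ}
  {R : ℂ ⧸ Λ → PN 1} {e : ℂ ⧸ Λ → PN r} {ε : Fin (M + 1) ≃ Fin (N + 1) × Fin (r + 1)} {m : ℕ} {Φ : MvPolynomial (Fin 2) ℂ}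
  {Θ : SymDiff (coneE P) m}

/-- a lift in coordinates -/
theorem exists_rep {n : ℕ} {f : ℂ → PN n} (hf : HolomorphicInto f Set.univ) :
    ∃ F : ℂ → Fin (n + 1) → ℂ, Differentiable ℂ F ∧ ∀ z, Rep (F z) (f z) := by
  obtain ⟨F, hF, h⟩ := Pool.Agent.H17EF.exists_lift hf
  exact ⟨fun z => (LE n).symm (F z), (LE n).symm.differentiable.comp hF, fun z => h z⟩

theorem differentiable_eval {n : ℕ} {F : ℂ → Fin (n + 1) → ℂ} (hF : Differentiable ℂ F) (Q : MvPolynomial (Fin (n + 1)) ℂ) :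
    Differentiable ℂ fun z => eval (F z) Q := by
  intro z
  have h1 : AnalyticAt ℂ (fun w => MvPolynomial.aeval (F w) Q) z :=
    AnalyticAt.aeval_mvPolynomial (fun i => analyticAt_pi_iff.mp (hF.analyticAt z) i) Q
  exact h1.differentiableAt

theorem differentiable_pair {F : ℂ → Fin (N + 1) → ℂ} (hF : Differentiable ℂ F) : Differentiable ℂ fun z => pair A B (F z) := by
  refine differentiable_pi.2 fun i => ?_
  fin_cases i
  · exact differentiable_eval hF A
  · exact differentiable_eval hF B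

/-- **The clock**: the image of an entire curve on which `Θ` is constant. -/
theorem exists_time (hm : 1 ≤ m) (hR : IsOrbifoldCover R m Φ) {F : ℂ → EN N} (hF : Differentiable ℂ F)
    (hT : ∃ z, pair A B (F z).ofLp ≠ 0) {q : ℂ}
    (hq : ∀ z, wronskian (fun w => pair A B (F w).ofLp) z ^ m = q * eval (pair A B (F z).ofLp) Φ) :
    ∃ ζ b : ℂ, ∀ z, pair A B (F z).ofLp ≠ 0 → Rep (pair A B (F z).ofLp) (R ((ζ * z + b : ℂ) : ℂ ⧸ Λ)) := by
  obtain ⟨ρ, hρ, hρR⟩ := exists_rep hR.holomorphic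
  have hFd : Differentiable ℂ fun z => (F z).ofLp := (LE N).symm.differentiable.comp hF
  have h1 : ∀ z, wronskian ρ z ^ m = eval (ρ z) Φ := fun z =>
    hR.equation ρ z (hρ.analyticAt z) (Eventually.of_forall fun w => hρR w)
  have hsurj : ∀ t : Fin 2 → ℂ, t ≠ 0 → ∃ w c : ℂ, c ≠ 0 ∧ t = c • ρ w := by
    intro t ht
    obtain ⟨c, hc⟩ := hR.onto (Projectivization.mk ℂ t ht)
    obtain ⟨w, rfl⟩ := QuotientAddGroup.mk_surjective c
    have h2 : Rep (r := 1) t (R (w : ℂ ⧸ Λ)) := ⟨ht, hc⟩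
    obtain ⟨a, ha, h3⟩ := h2.eq_smul (hρR w)
    exact ⟨w, a, ha, h3⟩
  obtain ⟨ζ, b, h2⟩ := exists_clock hm hR.form hρ (fun z => (hρR z).1) h1 hsurj (differentiable_pair (A := A) (B := B) hFd) hT hq
  refine ⟨ζ, b, fun z hz => ?_⟩
  have h3 := h2 z
  obtain ⟨h4, h5⟩ := hρR (ζ * z + b)
  obtain ⟨a, ha⟩ : ∃ a : ℂ, ρ (ζ * z + b) = a • pair A B (F z).ofLp := by
    obtain ⟨i, hi⟩ := Function.ne_iff.1 hz
    rw [Pi.zero_apply] at hi
    refine ⟨ρ (ζ * z + b) i / pair A B (F z).ofLp i, ?_⟩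
    fin_cases i
    · funext k
      fin_cases k
      · simp only [Pi.smul_apply, smul_eq_mul]
        exact (div_mul_cancel₀ _ hi).symm
      · simp only [Pi.smul_apply, smul_eq_mul]
        rw [div_mul_eq_mul_div, eq_div_iff hi]
        exact h3.symm
    · funext k
      fin_cases k
      · simp only [Pi.smul_apply, smul_eq_mul]
        rw [div_mul_eq_mul_div, eq_div_iff hi]
        exact h3
      · simp only [Pi.smul_apply, smul_eq_mul]
        exact (div_mul_cancel₀ _ hi).symm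
  exact rep_of_smul (hρR (ζ * z + b)) hz ha

/-- `Θ` is constant on entire curves of order two. -/
theorem theta_const (hX : IsCone (coneE P)) (hch : Charts (coneE P)) (hm : 1 ≤ m) (Θ : SymDiff (coneE P) m) {F : ℂ → EN N}
    (hF : Differentiable ℂ F) (hFX : ∀ z, F z ∈ coneE P) {K : ℝ}
    (hK : ∀ r : ℝ, 0 < r → Real.circleAverage (fun z => Real.log ‖F z‖) 0 r ≤ K * (1 + r ^ 2)) (z : ℂ) :
    Θ.toFun (F z) (deriv F z) = Θ.toFun (F 0) (deriv F 0) := by
  obtain ⟨C, hC, hb⟩ := Θ.bound hX hch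
  have h0 : ∀ z, F z ≠ 0 := fun z h => (hFX z).1 (by rw [h]; rfl)
  exact Pool.Agent.H15.V.liouville hF h0 (Pool.Agent.H14.V.theta_entire hX hch Θ hF hFX) hm (C := C)
    (fun z => hb _ (hFX z) _ (Pool.Agent.H14.V.tan_of_curve hF hFX z)) hK z

/-- **The lift to the fibre product.** -/
theorem lift_vanishes {F : ℂ → Fin (N + 1) → ℂ} (hF : Differentiable ℂ F)
    (hFX : ∀ z, F z ∈ cone P) (hT : ∃ z, pair A B (F z) ≠ 0) {ζ b : ℂ}
    (h : ∀ z, pair A B (F z) ≠ 0 → Rep (pair A B (F z)) (R ((ζ * z + b : ℂ) : ℂ ⧸ Λ)))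
    {y : ℂ → Fin (r + 1) → ℂ} (hy : Differentiable ℂ y) (hye : ∀ z : ℂ, Rep (y z) (e (z : ℂ ⧸ Λ)))
    {Q : MvPolynomial (Fin (M + 1)) ℂ} (hQ : Q ∈ fibreProduct P A B R e ε) (z : ℂ) :
    eval (segre ε (F z) (y (ζ * z + b))) Q = 0 := by
  have haff : Differentiable ℂ fun z : ℂ => ζ * z + b := (differentiable_id.const_mul ζ).add_const _
  have hseg : Differentiable ℂ fun z => segre ε (F z) (y (ζ * z + b)) := by
    refine differentiable_pi.2 fun k => ?_
    exact (differentiable_pi.1 hF _).mul ((differentiable_pi.1 hy _).comp haff)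
  have h1 := differentiable_eval hseg Q
  obtain ⟨z₀, hz₀⟩ := hT
  have hTc : Continuous fun z => pair A B (F z) := (differentiable_pair hF).continuous
  have h2 := AnalyticOnNhd.eq_of_eventuallyEq (g := fun _ => 0) (fun w _ => h1.analyticAt w) (fun w _ => analyticAt_const)
    (z₀ := z₀) (by
      filter_upwards [hTc.continuousAt.eventually_ne hz₀] with w hw
      exact mem_fib.1 hQ (F w) (y (ζ * w + b)) _ (hFX w) (hye _) (h w hw))
  exact congrFun h2 z

/-- **Entire curves of order two in the surface.** -/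
theorem core [hPp : P.IsPrime] {z : Fin 2 → FunField P} (hP : Homog P) (hz : IsTranscendenceBasis ℂ z)
    (hsm : ∀ y : Fin (N + 1) → ℂ, y ≠ 0 → (∀ Q ∈ P, eval y Q = 0) → Module.finrank ℂ (conTan P y) ≤ 3)
    {d : ℕ} (hA : A.IsHomogeneous d) (hB : B.IsHomogeneous d) (hAB : A ∉ P ∨ B ∉ P) (hm : 1 ≤ m)
    (hR : IsOrbifoldCover R m Φ) (hΘ : IsPullback P A B Θ Φ) (he : HolomorphicInto (fun z : ℂ => e z) Set.univ)
    [hV : (fibreProduct P A B R e ε).IsPrime] (hz' : ∃ z : Fin 2 → FunField (fibreProduct P A B R e ε), IsTranscendenceBasis ℂ z)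
    {Ξ' : Set (PN M)} (hcl : ZariskiClosedIn (projVar (fibreProduct P A B R e ε)) Ξ') (hpr : Ξ' ≠ projVar (fibreProduct P A B R e ε))
    (hbr : ∀ f : ℂ → PN M, HolomorphicInto f Set.univ → (∀ z, f z ∈ projVar (fibreProduct P A B R e ε)) → (∃ z w, f z ≠ f w) →
      ∀ z, f z ∈ Ξ') :
    ∃ (T : MvPolynomial (Fin (N + 1)) ℂ) (D : ℕ), T.IsHomogeneous D ∧ T ∉ P ∧
      ∀ f : ℂ → PN N, HolomorphicInto f Set.univ → OrderTwo f → (∀ z, f z ∈ projVar P) → (∃ z w, f z ≠ f w) →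
        ∀ z, VanishesAt T (f z) := by
  obtain ⟨S, n, hS, hSV, hSΞ⟩ := Pool.Agent.H17EF.exists_form_of_ne hcl hpr
  obtain ⟨T, D, hT, hTP, hTd⟩ := exists_down hP ⟨z, hz⟩ hA hB hAB hR.onto hz' hS hSV
  obtain ⟨C, hC, hCP, hCz⟩ : ∃ C : MvPolynomial (Fin (N + 1)) ℂ, C.IsHomogeneous d ∧ C ∉ P ∧ ∀ x, pair A B x = 0 → eval x C = 0 := by
    rcases hAB with h | h
    · exact ⟨A, hA, h, fun x hx => congrFun hx 0⟩
    · exact ⟨B, hB, h, fun x hx => congrFun hx 1⟩
  have hVh : Homog (fibreProduct P A B R e ε) := homog_fib hP hA hB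
  refine ⟨T * C, D + d, hT.mul hC, fun h => (hPp.mem_or_mem h).elim hTP hCP, fun f hf hfo hfX hfn z₁ => ?_⟩
  obtain ⟨F, K, hF, hFf, hK⟩ := hfo
  have hS' : Pool.Agent.H17BP.Surface (cone P) := Pool.Agent.H13.SM.surface_cone hP hz fun y hy => hsm y hy.1 hy.2
  have hX : IsCone (coneE P) := Pool.Agent.H36.BP.isCone_transport (LE N) hS'
  have hch : Charts (coneE P) := Pool.Agent.H17EF.charts hS'
  have hFc : ∀ z, F z ∈ cone P := by
    intro z
    obtain ⟨h1, h2⟩ := hFf z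
    have h3 := hfX z
    rw [h2, mk_mem_projVar hP h1] at h3
    exact h3
  have hvan : ∀ z, (eval (F z) (T * C) = 0 → VanishesAt (T * C) (f z)) := by
    intro z h
    obtain ⟨h1, h2⟩ := hFf z
    rw [h2, vanishesAt_mk_iff (hT.mul hC)]
    exact h
  apply hvan
  by_cases hpair : ∃ z, pair A B (F z) ≠ 0
  · -- the curve is not in the base locus
    obtain ⟨G, hG⟩ : ∃ G : ℂ → EN N, ∀ z, G z = (LE N) (F z) := ⟨_, fun _ => rfl⟩
    have hGF : ∀ z, (G z).ofLp = F z := fun z => by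
      rw [hG]
      rfl
    have hGd : Differentiable ℂ G := by
      have : G = fun z => (LE N) (F z) := funext hG
      rw [this]
      exact (LE N).differentiable.comp hF
    have hGX : ∀ z, G z ∈ coneE P := fun z => by
      show (LE N).symm (G z) ∈ cone P
      rw [hG, ContinuousLinearEquiv.symm_apply_apply]
      exact hFc z
    obtain ⟨K', hK'⟩ := Pool.Agent.H14.V.average_toLp hF (fun z => (hFf z).1) hK
    have hK'' : ∀ r : ℝ, 0 < r → Real.circleAverage (fun z => Real.log ‖G z‖) 0 r ≤ K' * (1 + r ^ 2) := by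
      intro r hr
      have h1 := hK' r hr
      have h2 : (fun z => Real.log ‖G z‖) = fun z => Real.log ‖(WithLp.toLp 2 (F z) : EN N)‖ := by
        funext z
        rw [hG]
        rfl
      rw [h2]
      exact h1
    have hconst := theta_const hX hch hm Θ hGd hGX hK''
    have hpair' : ∃ z, pair A B (G z).ofLp ≠ 0 := by
      obtain ⟨z, hz⟩ := hpair
      exact ⟨z, by rw [hGF]; exact hz⟩
    obtain ⟨ζ, b, htime⟩ := exists_time hm hR hGd hpair' (q := Θ.toFun (G 0) (deriv G 0)) (fun z => by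
      rw [hΘ G z (hGd.analyticAt z) (Eventually.of_forall hGX), hconst z])
    simp only [hGF] at htime
    obtain ⟨y, hy, hye⟩ := exists_rep he
    have hlift := fun (Q : MvPolynomial (Fin (M + 1)) ℂ) (hQ : Q ∈ fibreProduct P A B R e ε) =>
      lift_vanishes (ε := ε) hF hFc hpair htime hy hye hQ
    -- the lifted curve
    have hy0 : ∀ z, y (ζ * z + b) ≠ 0 := fun z => (hye _).1
    have hF0 : ∀ z, F z ≠ 0 := fun z => (hFc z).1
    have hg0 : ∀ z, segre ε (F z) (y (ζ * z + b)) ≠ 0 := by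
      intro z h0
      obtain ⟨i, hi⟩ := Function.ne_iff.1 (hF0 z)
      obtain ⟨j, hj⟩ := Function.ne_iff.1 (hy0 z)
      have h6 := congrFun h0 (ε.symm (i, j))
      simp only [segre, Equiv.apply_symm_apply, Pi.zero_apply] at h6
      exact mul_ne_zero hi hj h6
    obtain ⟨g, hg⟩ : ∃ g : ℂ → PN M, ∀ z, g z = Projectivization.mk ℂ (segre ε (F z) (y (ζ * z + b))) (hg0 z) := ⟨_, fun _ => rfl⟩
    have haff : Differentiable ℂ fun z : ℂ => ζ * z + b := (differentiable_id.const_mul ζ).add_const _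
    have hseg : Differentiable ℂ fun z => segre ε (F z) (y (ζ * z + b)) := by
      refine differentiable_pi.2 fun k => ?_
      exact (differentiable_pi.1 hF _).mul ((differentiable_pi.1 hy _).comp haff)
    have hghol : HolomorphicInto g Set.univ := by
      intro z _
      exact ⟨_, hseg.analyticAt z, Eventually.of_forall fun w => ⟨hg0 w, hg w⟩⟩
    have hgV : ∀ z, g z ∈ projVar (fibreProduct P A B R e ε) := by
      intro z
      rw [hg, mk_mem_projVar hVh (hg0 z)]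
      exact ⟨hg0 z, fun Q hQ => hlift Q hQ z⟩
    have hgn : ∃ z w, g z ≠ g w := by
      obtain ⟨z, w, hzw⟩ := hfn
      refine ⟨z, w, fun h => hzw ?_⟩
      rw [hg, hg, Projectivization.mk_eq_mk_iff'] at h
      obtain ⟨a, ha⟩ := h
      obtain ⟨h1, h1'⟩ := hFf z
      obtain ⟨h2, h2'⟩ := hFf w
      rw [h1', h2', Projectivization.mk_eq_mk_iff']
      obtain ⟨j, hj⟩ := Function.ne_iff.1 (hy0 z)
      rw [Pi.zero_apply] at hj
      refine ⟨a * y (ζ * w + b) j / y (ζ * z + b) j, ?_⟩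
      funext i
      have h3 := congrFun ha (ε.symm (i, j))
      simp only [segre, Equiv.apply_symm_apply, Pi.smul_apply, smul_eq_mul] at h3 ⊢
      field_simp
      linear_combination h3
    have h1 := hSΞ _ (hbr g hghol hgV hgn z₁)
    rw [hg, vanishesAt_mk_iff hS] at h1
    rw [map_mul, hTd _ _ (hF0 z₁) (hy0 z₁) (fun Q hQ => hlift Q hQ z₁) h1, zero_mul]
  · push Not at hpair
    rw [map_mul, hCz _ (hpair z₁), mul_zero]

/-- **The Green–Griffiths–Lang conjecture goes down from the fibre product to the surface.** -/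
theorem ggl_of_cover [hPp : P.IsPrime] {z : Fin 2 → FunField P} (hP : Homog P) (hz : IsTranscendenceBasis ℂ z)
    (hsm : ∀ y : Fin (N + 1) → ℂ, y ≠ 0 → (∀ Q ∈ P, eval y Q = 0) → Module.finrank ℂ (conTan P y) ≤ 3) (hgt : GT P 2)
    {d : ℕ} (hA : A.IsHomogeneous d) (hB : B.IsHomogeneous d) (hAB : A ∉ P ∨ B ∉ P) (hm : 1 ≤ m)
    (hR : IsOrbifoldCover R m Φ) (hΘ : IsPullback P A B Θ Φ) (he : HolomorphicInto (fun z : ℂ => e z) Set.univ)
    [hV : (fibreProduct P A B R e ε).IsPrime] (hz' : ∃ z : Fin 2 → FunField (fibreProduct P A B R e ε), IsTranscendenceBasis ℂ z)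
    {Ξ' : Set (PN M)} (hcl : ZariskiClosedIn (projVar (fibreProduct P A B R e ε)) Ξ') (hpr : Ξ' ≠ projVar (fibreProduct P A B R e ε))
    (hbr : ∀ f : ℂ → PN M, HolomorphicInto f Set.univ → (∀ z, f z ∈ projVar (fibreProduct P A B R e ε)) → (∃ z w, f z ≠ f w) →
      ∀ z, f z ∈ Ξ') : ∃ Ξ, GGL P Ξ := by
  obtain ⟨T, D, hT, hTP, hTf⟩ := core hP hz hsm hA hB hAB hm hR hΘ he hz' hcl hpr hbr
  obtain ⟨Ξ, hΞ⟩ : ∃ Ξ : Set (PN N), Ξ = {x | x ∈ projVar P ∧ ∀ Q ∈ ({T} : Set (MvPolynomial (Fin (N + 1)) ℂ)), VanishesAt Q x} := ⟨_, rfl⟩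
  have hX : ∃ i, (X i : MvPolynomial (Fin (N + 1)) ℂ) ∉ P := by
    obtain ⟨i, hi⟩ := Pool.Agent.H92.GT.Proj.exists_coordFun_ne_zero P (k := 1) z hz
    exact ⟨i, Pool.Agent.H17R.coordFun_ne_zero_iff.1 hi⟩
  have hclΞ : ZariskiClosedIn (projVar P) Ξ := ⟨{T}, fun Q hQ => ⟨D, by rw [Set.mem_singleton_iff.1 hQ]; exact hT⟩, hΞ⟩
  have hprΞ : Ξ ≠ projVar P := by
    intro h
    obtain ⟨x, hx, hxT⟩ := Pool.Agent.H17EF.exists_point hP hX hTP hT
    rw [← h, hΞ] at hx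
    exact hxT (hx.2 T rfl)
  obtain ⟨h1, h2, h3, -⟩ := Pool.Agent.H14.V.four_of_brody hP hz hsm hgt hclΞ hprΞ (fun f hf hfo hfX hfn z => by
    rw [hΞ]
    refine ⟨hfX z, fun Q hQ => ?_⟩
    rw [Set.mem_singleton_iff.1 hQ]
    exact hTf f hf hfo hfX hfn z)
  refine ⟨Ξ, hclΞ, hprΞ, ?_, h2, h1, fun Q _ hQ hPQ hsub w hw hzw => h3 Q hQ hPQ hsub w hw hzw⟩
  intro w _ hzw
  obtain ⟨z', hz'⟩ := hzw
  have h4 : w = 2 := by
    have h5 := hz'.cardinalMk_eq_trdeg
    rw [← hz.cardinalMk_eq_trdeg, Cardinal.mk_fin, Cardinal.mk_fin] at h5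
    exact_mod_cast h5
  subst h4
  exact hgt

end Pool.Agent.H19OL
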