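import Pool.Agent.H19OL.Wr
import Pool.Agent.H17EF.Bridge
import Pool.Agent.H92.TH.Defs

/-!
# OL Defs: surfaces with a rational map to the projective line whose orbifold base has Kodaira dimension `0`

The orbifold base of the rational map `t = (A : B) : X ⇢ ℙ¹` (in the sense of Campana: the multiplicity of a point is the minimum of the
multiplicities of the components of the fibre) has Kodaira dimension `0` in the cases `(2, 2, 2, 2)`, `(3, 3, 3)`, `(2, 4, 4)`, `(2, 3, 6)`.  Then there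
are an elliptic curve `ℂ / Λ`, a covering `R : ℂ / Λ → ℙ¹` and a binary form `Φ` of degree `2 m` (`m = 2, 3, 4, 6`) with
`(R₀ R₁' - R₁ R₀') ^ m = Φ (R₀, R₁)` (`IsOrbifoldCover`), and `Θ = (A dB - B dA) ^ m / Φ (A, B)` is a holomorphic symmetric differential on `X`
(`IsPullback`).  The Zariski closure of `{(x, c) : t x = R c}` in `X × ℂ / Λ` is given by the ideal `fibreProduct`.
-/

set_option autoImplicit false

open Topology Filter MvPolynomial

noncomputable section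

namespace Pool.Agent.H19OL

open Pool.Agent.H17 (PN HolomorphicInto)
open Pool.Agent.H13.SM (cone)
open Pool.Agent.H17EF (coneE)
open Pool.Agent.H36.BP (EN)
open Pool.Agent.H92.TH (SymDiff)

variable {N M r : ℕ}

/-- `y` is a vector of homogeneous coordinates of the point `p`. -/
def Rep (y : Fin (r + 1) → ℂ) (p : PN r) : Prop := ∃ h : y ≠ 0, p = Projectivization.mk ℂ y h

/-- The values of two polynomials. -/
def pair (A B : MvPolynomial (Fin (N + 1)) ℂ) (x : Fin (N + 1) → ℂ) : Fin 2 → ℂ := ![eval x A, eval x B]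

/-- `R : ℂ / Λ → ℙ¹` is holomorphic and onto, and `(ρ₀ ρ₁' - ρ₁ ρ₀') ^ m = Φ (ρ₀, ρ₁)` for every local holomorphic representation `(ρ₀ : ρ₁)` of `R`,
where `Φ` is a binary form of degree `2 m`. -/
structure IsOrbifoldCover {Λ : AddSubgroup ℂ} (R : ℂ ⧸ Λ → PN 1) (m : ℕ) (Φ : MvPolynomial (Fin 2) ℂ) : Prop where
  form : Φ.IsHomogeneous (2 * m)
  holomorphic : HolomorphicInto (fun z : ℂ => R z) Set.univ
  onto : Function.Surjective R
  equation : ∀ (ρ : ℂ → Fin 2 → ℂ) (z : ℂ), AnalyticAt ℂ ρ z → (∀ᶠ w : ℂ in 𝓝 z, Rep (ρ w) (R w)) → wronskian ρ z ^ m = eval (ρ z) Φ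

/-- `Θ` is the symmetric differential `(A dB - B dA) ^ m / Φ (A, B)` on the variety of `P`: this holds for all holomorphic curves `F` in the cone. -/
def IsPullback (P : Ideal (MvPolynomial (Fin (N + 1)) ℂ)) (A B : MvPolynomial (Fin (N + 1)) ℂ) {m : ℕ} (Θ : SymDiff (coneE P) m)
    (Φ : MvPolynomial (Fin 2) ℂ) : Prop :=
  ∀ (F : ℂ → EN N) (z : ℂ), AnalyticAt ℂ F z → (∀ᶠ w in 𝓝 z, F w ∈ coneE P) →
    wronskian (fun w => pair A B (F w).ofLp) z ^ m = Θ.toFun (F z) (deriv F z) * eval (pair A B (F z).ofLp) Φ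

/-- The Segre product `(x i * y j)` of two vectors; `ε` is a numbering of the pairs `(i, j)`. -/
def segre (ε : Fin (M + 1) ≃ Fin (N + 1) × Fin (r + 1)) (x : Fin (N + 1) → ℂ) (y : Fin (r + 1) → ℂ) : Fin (M + 1) → ℂ :=
  fun k => x (ε k).1 * y (ε k).2

/-- The homogeneous coordinates of the points `(x, c)` of `X × ℂ / Λ` with `(A x : B x) = R c`, where `X` is the variety of `P`, and
`e : ℂ / Λ → ℙ^r`. -/
def fibreGraph (P : Ideal (MvPolynomial (Fin (N + 1)) ℂ)) (A B : MvPolynomial (Fin (N + 1)) ℂ) {Λ : AddSubgroup ℂ} (R : ℂ ⧸ Λ → PN 1)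
    (e : ℂ ⧸ Λ → PN r) (ε : Fin (M + 1) ≃ Fin (N + 1) × Fin (r + 1)) : Set (Fin (M + 1) → ℂ) :=
  {v | ∃ (x : Fin (N + 1) → ℂ) (y : Fin (r + 1) → ℂ) (c : ℂ ⧸ Λ), x ∈ cone P ∧ Rep y (e c) ∧ Rep (pair A B x) (R c) ∧ v = segre ε x y}

/-- The ideal of the polynomials which vanish on `fibreGraph`. -/
def fibreProduct (P : Ideal (MvPolynomial (Fin (N + 1)) ℂ)) (A B : MvPolynomial (Fin (N + 1)) ℂ) {Λ : AddSubgroup ℂ} (R : ℂ ⧸ Λ → PN 1)
    (e : ℂ ⧸ Λ → PN r) (ε : Fin (M + 1) ≃ Fin (N + 1) × Fin (r + 1)) : Ideal (MvPolynomial (Fin (M + 1)) ℂ) :=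
  vanishingIdeal ℂ (fibreGraph P A B R e ε)

end Pool.Agent.H19OL
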