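import Pool.Agent.H19OL.Defs
import Pool.Agent.H19OL.Norm
import Pool.Agent.H7.Bir.Main

/-!
# OL Fib: the projection of the fibre product to the surface
-/

set_option autoImplicit false

open Topology Filter MvPolynomial

noncomputable section

namespace Pool.Agent.H19OL

open Pool.Agent.H17 (PN VanishesAt HolomorphicInto vanishesAt_mk_iff)
open Pool.Agent.H13.SM (cone)
open Pool.Agent.H62.FC (Homog)
open Pool.Agent.H17LG.Variety (FunField)
open Pool.Agent.H17EF (projVar)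
open Pool.Agent.H7.Bir (vals eval_comp)

variable {N M r : ℕ} {P : Ideal (MvPolynomial (Fin (N + 1)) ℂ)} {A B : MvPolynomial (Fin (N + 1)) ℂ} {Λ : AddSubgroup ℂ}
  {R : ℂ ⧸ Λ → PN 1} {e : ℂ ⧸ Λ → PN r} {ε : Fin (M + 1) ≃ Fin (N + 1) × Fin (r + 1)}

theorem mem_fib {Q : MvPolynomial (Fin (M + 1)) ℂ} : Q ∈ fibreProduct P A B R e ε ↔
    ∀ x y c, x ∈ cone P → Rep y (e c) → Rep (pair A B x) (R c) → eval (segre ε x y) Q = 0 := by
  unfold fibreProduct
  rw [mem_vanishingIdeal_iff]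
  constructor
  · intro h x y c h1 h2 h3
    have h4 := h (segre ε x y) ⟨x, y, c, h1, h2, h3, rfl⟩
    rwa [aeval_eq_eval] at h4
  · rintro h _ ⟨x, y, c, h1, h2, h3, rfl⟩
    rw [aeval_eq_eval]
    exact h x y c h1 h2 h3

theorem segre_smul (c : ℂ) (x : Fin (N + 1) → ℂ) (y : Fin (r + 1) → ℂ) : segre ε (c • x) y = c • segre ε x y := by
  funext k
  simp only [segre, Pi.smul_apply, smul_eq_mul, mul_assoc]

theorem cone_smul (hP : Homog P) {x : Fin (N + 1) → ℂ} (hx : x ∈ cone P) {c : ℂ} (hc : c ≠ 0) : c • x ∈ cone P := by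
  have h1 : c • x ≠ 0 := smul_ne_zero hc hx.1
  have h2 := (Pool.Agent.H17EF.mk_mem_projVar hP hx.1).2 hx
  rw [← Pool.Agent.H17EF.mk_mem_projVar hP h1]
  have h3 : Projectivization.mk ℂ (c • x) h1 = Projectivization.mk ℂ x hx.1 := by
    rw [Projectivization.mk_eq_mk_iff']
    exact ⟨c, rfl⟩
  rw [h3]
  exact h2

theorem Rep.smul {n : ℕ} {y : Fin (n + 1) → ℂ} {p : PN n} (h : Rep y p) {c : ℂ} (hc : c ≠ 0) : Rep (c • y) p := by
  obtain ⟨h1, h2⟩ := h
  refine ⟨smul_ne_zero hc h1, ?_⟩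
  rw [h2, Projectivization.mk_eq_mk_iff']
  refine ⟨c⁻¹, ?_⟩
  rw [smul_smul, inv_mul_cancel₀ hc, one_smul]

theorem rep_rep {n : ℕ} (p : PN n) : Rep p.rep p := ⟨p.rep_nonzero, p.mk_rep.symm⟩

/-- two representations -/
theorem Rep.eq_smul {n : ℕ} {x y : Fin (n + 1) → ℂ} {p : PN n} (hx : Rep x p) (hy : Rep y p) : ∃ c : ℂ, c ≠ 0 ∧ x = c • y := by
  obtain ⟨h1, h2⟩ := hx
  obtain ⟨h3, h4⟩ := hy
  rw [h2, Projectivization.mk_eq_mk_iff'] at h4
  obtain ⟨a, ha⟩ := h4
  refine ⟨a, ?_, ha.symm⟩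
  rintro rfl
  rw [zero_smul] at ha
  exact h1 ha.symm

theorem rep_of_smul {n : ℕ} {x y : Fin (n + 1) → ℂ} {p : PN n} (hx : Rep x p) (hy : y ≠ 0) {c : ℂ} (h : x = c • y) : Rep y p := by
  obtain ⟨h1, h2⟩ := hx
  refine ⟨hy, ?_⟩
  rw [h2, Projectivization.mk_eq_mk_iff']
  exact ⟨c, h.symm⟩

theorem pair_smul {d : ℕ} (hA : A.IsHomogeneous d) (hB : B.IsHomogeneous d) (c : ℂ) (x : Fin (N + 1) → ℂ) :
    pair A B (c • x) = c ^ d • pair A B x := by
  unfold pair
  rw [Pool.Agent.H17BP.eval_smul_form hA, Pool.Agent.H17BP.eval_smul_form hB]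
  funext i
  fin_cases i <;> rfl

/-- A polynomial which vanishes on a line has homogeneous components which vanish on the line. -/
theorem eval_component {n : ℕ} {v : Fin (n + 1) → ℂ} {Q : MvPolynomial (Fin (n + 1)) ℂ} (h : ∀ c : ℂ, c ≠ 0 → eval (c • v) Q = 0) (k : ℕ) :
    eval v (homogeneousComponent k Q) = 0 := by
  obtain ⟨p, hp⟩ : ∃ p : Polynomial ℂ, p = ∑ n ∈ Finset.range (Q.totalDegree + 1),
      Polynomial.C (eval v (homogeneousComponent n Q)) * (Polynomial.X : Polynomial ℂ) ^ n := ⟨_, rfl⟩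
  have h1 : ∀ c : ℂ, p.eval c = eval (c • v) Q := by
    intro c
    conv_rhs => rw [← sum_homogeneousComponent Q]
    rw [map_sum, hp, Polynomial.eval_finsetSum]
    refine Finset.sum_congr rfl fun n _ => ?_
    rw [Pool.Agent.H17BP.eval_smul_form (homogeneousComponent_isHomogeneous n Q), Polynomial.eval_mul, Polynomial.eval_C,
      Polynomial.eval_pow, Polynomial.eval_X, mul_comm]
  have h2 : p = 0 := by
    refine Polynomial.eq_zero_of_infinite_isRoot p ?_
    have h3 : ({(0 : ℂ)}ᶜ : Set ℂ) ⊆ {x | Polynomial.IsRoot p x} := by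
      intro c hc
      rw [Set.mem_compl_singleton_iff] at hc
      show p.eval c = 0
      rw [h1, h c hc]
    exact (Set.Finite.infinite_compl (Set.finite_singleton (0 : ℂ))).mono h3
  by_cases hk : k ∈ Finset.range (Q.totalDegree + 1)
  · rw [hp] at h2
    have h3 := congrArg (fun p => Polynomial.coeff p k) h2
    simp only [Polynomial.finsetSum_coeff, Polynomial.coeff_C_mul, Polynomial.coeff_X_pow, Polynomial.coeff_zero,
      mul_ite, mul_one, mul_zero] at h3
    rw [Finset.sum_ite_eq, if_pos hk] at h3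
    exact h3
  · rw [homogeneousComponent_eq_zero _ _ (by
      rw [Finset.mem_range] at hk
      omega), map_zero]

/-- The ideal of the fibre product is homogeneous. -/
theorem homog_fib (hP : Homog P) {d : ℕ} (hA : A.IsHomogeneous d) (hB : B.IsHomogeneous d) : Homog (fibreProduct P A B R e ε) := by
  intro Q hQ k
  rw [mem_fib] at hQ ⊢
  intro x y c h1 h2 h3
  refine eval_component (fun a ha => ?_) k
  rw [← segre_smul]
  refine hQ (a • x) y c (cone_smul hP h1 ha) h2 ?_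
  rw [pair_smul hA hB]
  exact h3.smul (pow_ne_zero _ ha)

/-- The projection to the first factor, for the `j`-th coordinate of the second factor. -/
def proj (ε : Fin (M + 1) ≃ Fin (N + 1) × Fin (r + 1)) (j : Fin (r + 1)) : Fin (N + 1) → MvPolynomial (Fin (M + 1)) ℂ :=
  fun i => X (ε.symm (i, j))

theorem proj_homog (j : Fin (r + 1)) (i : Fin (N + 1)) : (proj ε j i).IsHomogeneous 1 := isHomogeneous_X ℂ _

theorem vals_proj (j : Fin (r + 1)) (x : Fin (N + 1) → ℂ) (y : Fin (r + 1) → ℂ) : vals (proj ε j) (segre ε x y) = y j • x := by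
  funext i
  simp only [vals, proj, eval_X, segre, Equiv.apply_symm_apply, Pi.smul_apply, smul_eq_mul]
  ring

theorem eval_proj (j : Fin (r + 1)) (x : Fin (N + 1) → ℂ) (y : Fin (r + 1) → ℂ) {n : ℕ} {Q : MvPolynomial (Fin (N + 1)) ℂ}
    (hQ : Q.IsHomogeneous n) : eval (segre ε x y) (aeval (proj ε j) Q) = y j ^ n * eval x Q := by
  rw [eval_comp, vals_proj, Pool.Agent.H17BP.eval_smul_form hQ]

/-- A form which vanishes on the cone is in the ideal. -/
theorem mem_of_cone [P.IsPrime] (hP : Homog P) (hX : ∃ i, (X i : MvPolynomial (Fin (N + 1)) ℂ) ∉ P) {n : ℕ}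
    {Q : MvPolynomial (Fin (N + 1)) ℂ} (hQ : Q.IsHomogeneous n) (h : ∀ x ∈ cone P, eval x Q = 0) : Q ∈ P := by
  by_contra hcon
  obtain ⟨x, hx, hxQ⟩ := Pool.Agent.H17EF.exists_point hP hX hcon hQ
  apply hxQ
  apply h
  have h1 : Projectivization.mk ℂ x.rep x.rep_nonzero ∈ projVar P := by rwa [x.mk_rep]
  exact (Pool.Agent.H17EF.mk_mem_projVar hP x.rep_nonzero).1 h1

/-- The projection is dominant. -/
theorem proj_maps [hPp : P.IsPrime] (hP : Homog P) (hX : ∃ i, (X i : MvPolynomial (Fin (N + 1)) ℂ) ∉ P) {d : ℕ} (hA : A.IsHomogeneous d)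
    (hB : B.IsHomogeneous d) (hAB : A ∉ P ∨ B ∉ P) (hR : Function.Surjective R) [hV : (fibreProduct P A B R e ε).IsPrime]
    {i₀ : Fin (N + 1)} {j : Fin (r + 1)} (hj : X (ε.symm (i₀, j)) ∉ fibreProduct P A B R e ε) (n : ℕ)
    (Q : MvPolynomial (Fin (N + 1)) ℂ) (hQ : Q.IsHomogeneous n) : aeval (proj ε j) Q ∈ fibreProduct P A B R e ε ↔ Q ∈ P := by
  constructor
  · intro h
    -- the other coordinates of the second factor
    have h1 : ∀ l : Fin (r + 1), aeval (proj ε l) Q ∈ fibreProduct P A B R e ε := by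
      intro l
      have h2 : (X (ε.symm (i₀, j)) : MvPolynomial (Fin (M + 1)) ℂ) ^ n * aeval (proj ε l) Q ∈ fibreProduct P A B R e ε := by
        rw [mem_fib]
        intro x y c hx hy hxy
        have h3 := mem_fib.1 h x y c hx hy hxy
        rw [eval_proj j x y hQ] at h3
        rw [map_mul, map_pow, eval_X, eval_proj l x y hQ]
        simp only [segre, Equiv.apply_symm_apply]
        have h4 : (x i₀ * y j) ^ n * (y l ^ n * eval x Q) = (x i₀ * y l) ^ n * (y j ^ n * eval x Q) := by ring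
        rw [h4, h3, mul_zero]
      exact (hV.mem_or_mem h2).resolve_left fun h3 => hj (hV.mem_of_pow_mem _ h3)
    -- the form vanishes where the map is defined
    have h2 : ∀ x ∈ cone P, pair A B x ≠ 0 → eval x Q = 0 := by
      intro x hx hAB
      obtain ⟨c, hc⟩ := hR (Projectivization.mk ℂ (pair A B x) hAB)
      have h3 : Rep (pair A B x) (R c) := ⟨hAB, hc⟩
      obtain ⟨l, hl⟩ := Function.ne_iff.1 (e c).rep_nonzero
      have h4 := mem_fib.1 (h1 l) x (e c).rep c hx (rep_rep _) h3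
      rw [eval_proj l _ _ hQ] at h4
      exact (mul_eq_zero.1 h4).resolve_left (pow_ne_zero _ hl)
    have h3 : ∀ S : MvPolynomial (Fin (N + 1)) ℂ, (∀ x, eval x S ≠ 0 → pair A B x ≠ 0) → S.IsHomogeneous d → Q * S ∈ P := by
      intro S hS hSd
      refine mem_of_cone hP hX (hQ.mul hSd) fun x hx => ?_
      rw [map_mul]
      by_cases h4 : eval x S = 0
      · rw [h4, mul_zero]
      · rw [h2 x hx (hS x h4), zero_mul]
    rcases hAB with h4 | h4
    · refine (hPp.mem_or_mem (h3 A (fun x hx h0 => hx ?_) hA)).resolve_right h4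
      exact congrFun h0 0
    · refine (hPp.mem_or_mem (h3 B (fun x hx h0 => hx ?_) hB)).resolve_right h4
      exact congrFun h0 1
  · intro h
    rw [mem_fib]
    intro x y c hx _ _
    rw [eval_proj j x y hQ, hx.2 Q h, mul_zero]

/-- **From the fibre product to the surface.** -/
theorem exists_down [P.IsPrime] (hP : Homog P) {k : ℕ} (hz : ∃ z : Fin (k + 1) → FunField P, IsTranscendenceBasis ℂ z) {d : ℕ}
    (hA : A.IsHomogeneous d) (hB : B.IsHomogeneous d) (hAB : A ∉ P ∨ B ∉ P) (hR : Function.Surjective R)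
    [hV : (fibreProduct P A B R e ε).IsPrime] (hz' : ∃ z : Fin (k + 1) → FunField (fibreProduct P A B R e ε), IsTranscendenceBasis ℂ z)
    {n : ℕ} {S : MvPolynomial (Fin (M + 1)) ℂ} (hS : S.IsHomogeneous n) (hSV : S ∉ fibreProduct P A B R e ε) :
    ∃ (T : MvPolynomial (Fin (N + 1)) ℂ) (D : ℕ), T.IsHomogeneous D ∧ T ∉ P ∧ ∀ x y, x ≠ 0 → y ≠ 0 →
      (∀ Q ∈ fibreProduct P A B R e ε, eval (segre ε x y) Q = 0) → eval (segre ε x y) S = 0 → eval x T = 0 := by
  classical
  have hX : ∃ i, (X i : MvPolynomial (Fin (N + 1)) ℂ) ∉ P := by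
    obtain ⟨z, hz⟩ := hz
    obtain ⟨i, hi⟩ := Pool.Agent.H92.GT.Proj.exists_coordFun_ne_zero P z hz
    exact ⟨i, Pool.Agent.H17R.coordFun_ne_zero_iff.1 hi⟩
  have h1 : ∀ j : Fin (r + 1), ∃ (T : MvPolynomial (Fin (N + 1)) ℂ) (D : ℕ), T.IsHomogeneous D ∧ T ∉ P ∧
      ∀ x y, x ≠ 0 → y j ≠ 0 → (∀ Q ∈ fibreProduct P A B R e ε, eval (segre ε x y) Q = 0) → eval (segre ε x y) S = 0 → eval x T = 0 := by
    intro j
    by_cases hj : ∃ i₀, X (ε.symm (i₀, j)) ∉ fibreProduct P A B R e ε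
    · obtain ⟨i₀, hi₀⟩ := hj
      obtain ⟨T, D, hT, hTP, hTy⟩ := exists_norm_form hz hz' (proj_homog (ε := ε) j) (proj_maps hP hX hA hB hAB hR hi₀) hS hSV
      refine ⟨T, D, hT, hTP, fun x y hx hyj h3 h4 => ?_⟩
      have h5 : segre ε x y ≠ 0 := by
        intro h0
        obtain ⟨i, hi⟩ := Function.ne_iff.1 hx
        have h6 := congrFun h0 (ε.symm (i, j))
        simp only [segre, Equiv.apply_symm_apply, Pi.zero_apply] at h6
        exact mul_ne_zero hi hyj h6
      have h6 := hTy (segre ε x y) h5 h3 h4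
      rw [vals_proj, Pool.Agent.H17BP.eval_smul_form hT] at h6
      exact (mul_eq_zero.1 h6).resolve_left (pow_ne_zero _ hyj)
    · push Not at hj
      refine ⟨1, 0, isHomogeneous_one _ _, fun h => (Ideal.ne_top_iff_one P).1 (Ideal.IsPrime.ne_top inferInstance) h,
        fun x y hx hyj h3 h4 => ?_⟩
      obtain ⟨i, hi⟩ := Function.ne_iff.1 hx
      have h6 := h3 _ (hj i)
      rw [eval_X] at h6
      simp only [segre, Equiv.apply_symm_apply] at h6
      exact absurd h6 (mul_ne_zero hi hyj)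
  choose T D hT hTP hTy using h1
  refine ⟨∏ j, T j, ∑ j, D j, IsHomogeneous.prod _ _ _ fun j _ => hT j, ?_, fun x y hx hy h2 h3 => ?_⟩
  · intro h
    obtain ⟨j, -, hj⟩ := (Ideal.IsPrime.prod_mem_iff (p := P)).1 h
    exact hTP j hj
  · obtain ⟨j, hj⟩ := Function.ne_iff.1 hy
    rw [map_prod]
    exact Finset.prod_eq_zero (Finset.mem_univ j) (hTy j x y hx hj h2 h3)

end Pool.Agent.H19OL
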