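import Mathlib

/-!
# OL Wr: the Wronskian of a pair of functions
-/

set_option autoImplicit false

open Topology Filter

namespace Pool.Agent.H19OL

/-- The Wronskian `a b' - b a'` of a pair of functions. -/
noncomputable def wronskian (ρ : ℂ → Fin 2 → ℂ) (z : ℂ) : ℂ :=
  ρ z 0 * deriv (fun w => ρ w 1) z - ρ z 1 * deriv (fun w => ρ w 0) z

theorem wronskian_eq {ρ : ℂ → Fin 2 → ℂ} {z a b : ℂ} (h0 : HasDerivAt (fun w => ρ w 0) a z) (h1 : HasDerivAt (fun w => ρ w 1) b z) :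
    wronskian ρ z = ρ z 0 * b - ρ z 1 * a := by
  unfold wronskian
  rw [h0.deriv, h1.deriv]

theorem wronskian_congr {ρ ρ' : ℂ → Fin 2 → ℂ} {z : ℂ} (h : ∀ᶠ w in 𝓝 z, ρ w = ρ' w) : wronskian ρ z = wronskian ρ' z := by
  unfold wronskian
  have h0 : (fun w => ρ w 0) =ᶠ[𝓝 z] fun w => ρ' w 0 := h.mono fun w hw => congrFun hw 0
  have h1 : (fun w => ρ w 1) =ᶠ[𝓝 z] fun w => ρ' w 1 := h.mono fun w hw => congrFun hw 1
  rw [h0.deriv_eq, h1.deriv_eq, h.self_of_nhds]

/-- The Wronskian of `s • ρ ∘ h`. -/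
theorem wronskian_smul_comp {ρ : ℂ → Fin 2 → ℂ} {s h : ℂ → ℂ} {z : ℂ} (hρ : DifferentiableAt ℂ ρ (h z))
    (hs : DifferentiableAt ℂ s z) (hh : DifferentiableAt ℂ h z) :
    wronskian (fun w => s w • ρ (h w)) z = s z ^ 2 * (deriv h z * wronskian ρ (h z)) := by
  have h1 : ∀ i, HasDerivAt (fun w => (s w • ρ (h w)) i) (deriv s z * ρ (h z) i + s z * (deriv (fun w => ρ w i) (h z) * deriv h z)) z := by
    intro i
    have h2 : DifferentiableAt ℂ (fun w => ρ w i) (h z) := (differentiableAt_pi.1 hρ) i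
    have h3 : HasDerivAt (fun w => ρ (h w) i) (deriv (fun w => ρ w i) (h z) * deriv h z) z :=
      h2.hasDerivAt.comp z hh.hasDerivAt
    exact hs.hasDerivAt.mul h3
  rw [wronskian_eq (h1 0) (h1 1)]
  unfold wronskian
  simp only [Pi.smul_apply, smul_eq_mul]
  ring

/-- The derivative of the quotient of two linear forms. -/
theorem hasDerivAt_quot {T : ℂ → Fin 2 → ℂ} {z : ℂ} (hT : DifferentiableAt ℂ T z) (v α : Fin 2 → ℂ)
    (h : α 0 * T z 0 + α 1 * T z 1 ≠ 0) :
    HasDerivAt (fun w => (v 0 * T w 1 - v 1 * T w 0) / (α 0 * T w 0 + α 1 * T w 1))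
      ((α 0 * v 0 + α 1 * v 1) * wronskian T z / (α 0 * T z 0 + α 1 * T z 1) ^ 2) z := by
  have h0 : HasDerivAt (fun w => T w 0) (deriv (fun w => T w 0) z) z := ((differentiableAt_pi.1 hT) 0).hasDerivAt
  have h1 : HasDerivAt (fun w => T w 1) (deriv (fun w => T w 1) z) z := ((differentiableAt_pi.1 hT) 1).hasDerivAt
  have h2 := ((h1.const_mul (v 0)).sub (h0.const_mul (v 1))).div ((h0.const_mul (α 0)).add (h1.const_mul (α 1))) h
  refine h2.congr_deriv ?_
  unfold wronskian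
  simp only [Pi.sub_apply, Pi.add_apply]
  congr 1
  ring

/-- An analytic function whose derivative is zero near a point is constant near the point. -/
theorem eventually_const {f : ℂ → ℂ} {z₀ : ℂ} (hf : AnalyticAt ℂ f z₀) (h : ∀ᶠ z in 𝓝 z₀, deriv f z = 0) :
    ∀ᶠ z in 𝓝 z₀, f z = f z₀ := by
  obtain ⟨ε, hε, hb⟩ := Metric.eventually_nhds_iff_ball.1 (hf.eventually_analyticAt.and h)
  filter_upwards [Metric.ball_mem_nhds z₀ hε] with z hz
  exact Metric.isOpen_ball.is_const_of_deriv_eq_zero (convex_ball z₀ ε).isPreconnected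
    (fun w hw => (hb w hw).1.differentiableAt.differentiableWithinAt) (fun w hw => (hb w hw).2) hz (Metric.mem_ball_self hε)

/-- The determinant of the coordinates. -/
theorem norm_ne_zero' {v : Fin 2 → ℂ} (hv : v ≠ 0) :
    (starRingEnd ℂ) (v 0) * v 0 + (starRingEnd ℂ) (v 1) * v 1 ≠ 0 := by
  intro h
  rw [← Complex.normSq_eq_conj_mul_self, ← Complex.normSq_eq_conj_mul_self] at h
  have h1 : Complex.normSq (v 0) + Complex.normSq (v 1) = 0 := by exact_mod_cast h
  have h2 := Complex.normSq_nonneg (v 0)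
  have h3 := Complex.normSq_nonneg (v 1)
  have h4 : v 0 = 0 := Complex.normSq_eq_zero.1 (by linarith)
  have h5 : v 1 = 0 := Complex.normSq_eq_zero.1 (by linarith)
  apply hv
  funext i
  fin_cases i
  · exact h4
  · exact h5

end Pool.Agent.H19OL
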